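import Pool.Agent.WAQ.StmtsT

set_option autoImplicit false

namespace Pool.Agent.WAQ.H16

open Classical

variable [Par]

section basic
variable {F : Type} [NormedField F] {d : F}

theorem big_mono {N N' : ℝ} (h : N ≤ N') {P : Pt d} (hP : Big N' P) : Big N P := by
  rcases hP with h0 | h1
  · exact Or.inl h0
  · exact Or.inr (lt_of_le_of_lt h h1)

theorem sm_add_left (a b : ℤ) (P : Pt d) : sm (a + b) P = sm a P + sm b P := by
  rw [sm_def, sm_def, sm_def, add_zsmul]

theorem sm_zero' (P : Pt d) : sm 0 P = 0 := by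
  rw [sm_def, zero_zsmul]

theorem sm_one' (P : Pt d) : sm 1 P = P := by
  rw [sm_def, one_zsmul]

theorem sm_neg_one' (P : Pt d) : sm (-1) P = -P := by
  rw [sm_def, neg_zsmul, one_zsmul]

theorem cz_zero' : cz (0 : Pt d) = 0 := by
  show (0 : F) / 0 = 0
  simp

theorem cz_neg' (P : Pt d) : cz (-P) = -cz P := by
  rcases P with _ | ⟨X, Y, h⟩
  · have h1 : cz (WeierstrassCurve.Affine.Point.zero : Pt d) = 0 := cz_zero'
    have h2 : (-(WeierstrassCurve.Affine.Point.zero : Pt d)) = WeierstrassCurve.Affine.Point.zero :=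
      rfl
    rw [h2, h1, neg_zero]
  · rw [WeierstrassCurve.Affine.Point.neg_some]
    show X / (W d).negY X Y = -(X / Y)
    rw [W_negY, div_neg]

end basic

/-- The property to be proved for the integer `a`. -/
def Pr (F : Type) [NormedField F] (d : F) (a : ℤ) : Prop :=
  ∀ ε : ℝ, 0 < ε → ∃ N : ℝ, ∀ p : Pt d, Big N p →
    ‖cz (sm a p) - am F a * cz p‖ ≤ ε * ‖cz p‖

theorem zsm (zad : ZadStmt) (smn : SmnStmt) : ZsmStmt := by
  intro F _ hF d hd
  have hexact : ∀ a : ℤ,
      (∀ p : Pt d, cz (sm a p) = am F a * cz p) → Pr F d a := by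
    intro a ha ε hε
    refine ⟨0, fun p _ => ?_⟩
    rw [ha p, sub_self, norm_zero]
    positivity
  have h0 : Pr F d 0 := hexact 0 (fun p => by rw [sm_zero', cz_zero', map_zero, zero_mul])
  have h1 : Pr F d 1 := hexact 1 (fun p => by rw [sm_one', map_one, one_mul])
  have hm1 : Pr F d (-1) := hexact (-1) (fun p => by
    rw [sm_neg_one', cz_neg', map_neg, map_one, neg_one_mul])
  have hadd : ∀ a b : ℤ, Pr F d a → Pr F d b → Pr F d (a + b) := by
    intro a b ha hb ε hε
    set A : ℝ := ‖am F a‖ with hA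
    set B : ℝ := ‖am F b‖ with hB
    have hA0 : 0 ≤ A := norm_nonneg _
    have hB0 : 0 ≤ B := norm_nonneg _
    have he : 0 < ε / (3 * (A + B + 2)) := by positivity
    obtain ⟨N1, hN1⟩ := zad F hF d hd (ε / (3 * (A + B + 2))) he
    obtain ⟨N2, hN2⟩ := smn F hF d hd a N1
    obtain ⟨N3, hN3⟩ := smn F hF d hd b N1
    obtain ⟨N4, hN4⟩ := ha (min (ε / 3) 1) (lt_min (by positivity) one_pos)
    obtain ⟨N5, hN5⟩ := hb (min (ε / 3) 1) (lt_min (by positivity) one_pos)
    refine ⟨max (max N2 N3) (max N4 N5), fun p hp => ?_⟩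
    have e2 := hN2 p (big_mono (le_trans (le_max_left _ _) (le_max_left _ _)) hp)
    have e3 := hN3 p (big_mono (le_trans (le_max_right _ _) (le_max_left _ _)) hp)
    have e4 := hN4 p (big_mono (le_trans (le_max_left _ _) (le_max_right _ _)) hp)
    have e5 := hN5 p (big_mono (le_trans (le_max_right _ _) (le_max_right _ _)) hp)
    have e1 := hN1 _ _ e2 e3
    have hz : 0 ≤ ‖cz p‖ := norm_nonneg _
    have m1 : min (ε / 3) 1 ≤ 1 := min_le_right _ _
    have m2 : min (ε / 3) 1 ≤ ε / 3 := min_le_left _ _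
    have ba : ‖cz (sm a p)‖ ≤ (A + 1) * ‖cz p‖ := by
      have : cz (sm a p) = (cz (sm a p) - am F a * cz p) + am F a * cz p := by ring
      rw [this]
      refine le_trans (norm_add_le _ _) ?_
      rw [norm_mul]
      have := mul_le_mul_of_nonneg_right m1 hz
      linarith
    have bb : ‖cz (sm b p)‖ ≤ (B + 1) * ‖cz p‖ := by
      have : cz (sm b p) = (cz (sm b p) - am F b * cz p) + am F b * cz p := by ring
      rw [this]
      refine le_trans (norm_add_le _ _) ?_
      rw [norm_mul]
      have := mul_le_mul_of_nonneg_right m1 hz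
      linarith
    have bm : max ‖cz (sm a p)‖ ‖cz (sm b p)‖ ≤ (A + B + 2) * ‖cz p‖ := by
      apply max_le
      · refine le_trans ba (mul_le_mul_of_nonneg_right (by linarith) hz)
      · refine le_trans bb (mul_le_mul_of_nonneg_right (by linarith) hz)
    have e1' : ‖cz (sm a p + sm b p) - cz (sm a p) - cz (sm b p)‖ ≤ ε / 3 * ‖cz p‖ := by
      refine le_trans e1 ?_
      refine le_trans (mul_le_mul_of_nonneg_left bm he.le) ?_
      apply le_of_eq
      have : A + B + 2 ≠ 0 := by positivity
      field_simp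
    rw [sm_add_left, map_add]
    have hsplit : cz (sm a p + sm b p) - (am F a + am F b)
        * cz p = (cz (sm a p + sm b p) - cz (sm a p) - cz (sm b p))
        + (cz (sm a p) - am F a * cz p)
        + (cz (sm b p) - am F b * cz p) := by ring
    rw [hsplit]
    refine le_trans (norm_add_le _ _) ?_
    have h12 := norm_add_le (cz (sm a p + sm b p) - cz (sm a p) - cz (sm b p))
      (cz (sm a p) - am F a * cz p)
    have e4' := le_trans e4 (mul_le_mul_of_nonneg_right m2 hz)
    have e5' := le_trans e5 (mul_le_mul_of_nonneg_right m2 hz)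
    linarith
  have hmul : ∀ (u : ℤ), Pr F d u → ∀ n : ℕ, Pr F d (n * u) := by
    intro u hu n
    induction n with
    | zero => simpa using h0
    | succ n ih =>
      have := hadd _ _ ih hu
      rwa [show ((n : ℤ) * u + u) = ((n + 1 : ℕ) : ℤ) * u by push_cast; ring]
        at this
  have hall : ∀ a : ℤ, Pr F d a := by
    intro a
    obtain ⟨n, rfl | rfl⟩ := a.eq_nat_or_neg
    · have := hmul 1 h1 n
      rwa [mul_one] at this
    · have := hmul (-1) hm1 n
      rwa [mul_neg, mul_one] at this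
  intro a ε hε
  exact hall a ε hε

end Pool.Agent.WAQ.H16
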